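import Mathlib

set_option autoImplicit false

/-!
# The base model: a countable set with an action of `(ℤ/2)^ℕ`
-/

namespace Q204.BL

/-- The group `(ℤ/2)^ℕ`. -/
abbrev Om : Type := ℕ → Bool

/-- The group operation. -/
def xr (g x : Om) : Om := fun i => xor (g i) (x i)

theorem xr_xr (g x : Om) : xr g (xr g x) = x := by
  funext i
  unfold xr
  cases g i <;> simp

theorem xr_comm (g x : Om) : xr g x = xr x g := by
  funext i
  exact Bool.xor_comm _ _

theorem xr_assoc (g h x : Om) : xr (xr g h) x = xr g (xr h x) := by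
  funext i
  exact Bool.xor_assoc _ _ _

/-- Sets which depend on finitely many coordinates. -/
def FS (C : Set Om) : Prop := ∃ n, ∀ x y : Om, (∀ i < n, x i = y i) → (x ∈ C ↔ y ∈ C)

/-- The finitely supported sets. -/
abbrev FC : Type := {C : Set Om // FS C}

/-- The base set. -/
abbrev M : Type := FC × ℕ

/-- Translation of sets. -/
def tr (g : Om) (C : Set Om) : Set Om := {x | xr g x ∈ C}

theorem fs_tr {g : Om} {C : Set Om} (h : FS C) : FS (tr g C) := by
  obtain ⟨n, hn⟩ := h
  refine ⟨n, fun x y hxy => hn _ _ fun i hi => ?_⟩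
  unfold xr
  rw [hxy i hi]

/-- The action. -/
def act (g : Om) (m : M) : M := (⟨tr g m.1.1, fs_tr m.1.2⟩, m.2)

theorem act_act (g : Om) (m : M) : act g (act g m) = m := by
  refine Prod.ext (Subtype.ext ?_) rfl
  ext x
  show xr g (xr g x) ∈ m.1.1 ↔ x ∈ m.1.1
  rw [xr_xr]

theorem act_xr (g h : Om) (m : M) : act (xr g h) m = act g (act h m) := by
  refine Prod.ext (Subtype.ext ?_) rfl
  ext x
  show xr (xr g h) x ∈ m.1.1 ↔ xr h (xr g x) ∈ m.1.1
  rw [xr_comm g h, xr_assoc]

/-- An element is determined by finitely many coordinates of the group. -/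
theorem act_support (m : M) : ∃ n, ∀ g h : Om, (∀ i < n, g i = h i) → act g m = act h m := by
  obtain ⟨n, hn⟩ := m.1.2
  refine ⟨n, fun g h hgh => Prod.ext (Subtype.ext ?_) rfl⟩
  ext x
  exact hn _ _ fun i hi => by unfold xr; rw [hgh i hi]

instance : Countable FC := by
  have hsurj : Function.Surjective (fun p : Σ n, Set (Fin n → Bool) =>
      (⟨{x : Om | (fun i : Fin p.1 => x i) ∈ p.2}, ⟨p.1, fun x y hxy => by
        have : (fun i : Fin p.1 => x i) = fun i : Fin p.1 => y i := funext fun i => hxy i i.2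
        show (fun i : Fin p.1 => x i) ∈ p.2 ↔ (fun i : Fin p.1 => y i) ∈ p.2
        rw [this]⟩⟩ : FC)) := by
    rintro ⟨C, n, hn⟩
    refine ⟨⟨n, {z | (fun i => if h : i < n then z ⟨i, h⟩ else false) ∈ C}⟩, Subtype.ext ?_⟩
    ext x
    refine hn _ _ fun i hi => ?_
    simp [hi]
  exact hsurj.countable

/-- Action on assignments. -/
def actv (g : Om) (w : ℕ → M) : ℕ → M := fun i => act g (w i)

/-- Action on sets. -/
def acts (g : Om) (D : Set M) : Set M := {m | act g m ∈ D}

theorem acts_acts (g : Om) (D : Set M) : acts g (acts g D) = D := by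
  ext m
  show act g (act g m) ∈ D ↔ m ∈ D
  rw [act_act]

theorem acts_xr (g h : Om) (D : Set M) : acts (xr g h) D = acts g (acts h D) := by
  ext m
  show act (xr g h) m ∈ D ↔ act h (act g m) ∈ D
  rw [xr_comm, act_xr]

theorem actv_actv (g : Om) (w : ℕ → M) : actv g (actv g w) = w := funext fun i => act_act g (w i)

/-- Prepend an element. -/
def cons {α : Type} (a : α) (w : ℕ → α) : ℕ → α := fun i => Nat.casesOn i a w

/-- The tail. -/
def tl {α : Type} (w : ℕ → α) : ℕ → α := fun i => w (i + 1)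

@[simp] theorem cons_zero {α : Type} (a : α) (w : ℕ → α) : cons a w 0 = a := rfl

@[simp] theorem cons_succ {α : Type} (a : α) (w : ℕ → α) (i : ℕ) : cons a w (i + 1) = w i := rfl

@[simp] theorem tl_cons {α : Type} (a : α) (w : ℕ → α) : tl (cons a w) = w := rfl

theorem cons_eta {α : Type} (w : ℕ → α) : cons (w 0) (tl w) = w := by
  funext i
  cases i <;> rfl

theorem actv_cons (g : Om) (a : M) (w : ℕ → M) : actv g (cons a w) = cons (act g a) (actv g w) := by
  funext i
  cases i <;> rfl

/-- The slice of `A` at `w`. -/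
def sl {α : Type} (A : Set (ℕ → α)) (w : ℕ → α) : Set α := {a | cons a w ∈ A}

/-- All slices. -/
def den (A : Set (ℕ → M)) : Set (Set M) := {D | ∃ w, D = sl A w}

/-- Sets of assignments which depend on finitely many coordinates. -/
def FSup {α : Type} (A : Set (ℕ → α)) : Prop :=
  ∃ s, ∀ w w' : ℕ → α, (∀ i < s, w i = w' i) → (w ∈ A ↔ w' ∈ A)

/-- Invariant sets of assignments. -/
def Inv (A : Set (ℕ → M)) : Prop := ∀ g w, w ∈ A ↔ actv g w ∈ A

theorem sl_actv {A : Set (ℕ → M)} (hA : Inv A) (g : Om) (w : ℕ → M) :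
    sl A (actv g w) = acts g (sl A w) := by
  ext m
  show cons m (actv g w) ∈ A ↔ cons (act g m) w ∈ A
  rw [hA g (cons (act g m) w), actv_cons, act_act]

theorem den_acts {A : Set (ℕ → M)} (hA : Inv A) {D : Set M} (hD : D ∈ den A) (g : Om) :
    acts g D ∈ den A := by
  obtain ⟨w, rfl⟩ := hD
  exact ⟨actv g w, (sl_actv hA g w).symm⟩

theorem sl_congr {α : Type} {A : Set (ℕ → α)} {s : ℕ}
    (hs : ∀ w w' : ℕ → α, (∀ i < s, w i = w' i) → (w ∈ A ↔ w' ∈ A)) {w w' : ℕ → α}
    (h : ∀ i < s, w i = w' i) : sl A w = sl A w' := by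
  ext a
  refine hs _ _ fun i hi => ?_
  cases i with
  | zero => rfl
  | succ i => exact h i (by omega)

theorem countable_den {A : Set (ℕ → M)} (hA : FSup A) : (den A).Countable := by
  obtain ⟨s, hs⟩ := hA
  have m₀ : M := (⟨∅, 0, fun _ _ _ => Iff.rfl⟩, 0)
  have : den A ⊆ Set.range (fun z : Fin s → M => sl A (fun i => if h : i < s then z ⟨i, h⟩ else m₀)) := by
    rintro _ ⟨w, rfl⟩
    refine ⟨fun i => w i, sl_congr hs fun i hi => ?_⟩
    simp [hi]
  exact (Set.countable_range _).mono this

/-- The stabilizing transporter of an element of a slice family has finite support. -/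
theorem fs_transporter {A : Set (ℕ → M)} (hA : Inv A) (hA' : FSup A) {D D' : Set M}
    (hD : D ∈ den A) : FS {g | acts g D = D'} := by
  obtain ⟨w, rfl⟩ := hD
  obtain ⟨s, hs⟩ := hA'
  choose n hn using fun i => act_support (w i)
  refine ⟨(Finset.range s).sup n, fun g h hgh => ?_⟩
  have : acts g (sl A w) = acts h (sl A w) := by
    rw [← sl_actv hA, ← sl_actv hA]
    refine sl_congr hs fun i hi => ?_
    refine hn i g h fun j hj => hgh j ?_
    exact lt_of_lt_of_le hj (Finset.le_sup (f := n) (Finset.mem_range.2 hi))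
  show acts g (sl A w) = D' ↔ acts h (sl A w) = D'
  rw [this]

/-- The orbit equivalence relation. -/
def orb : Setoid (Set M) where
  r D D' := ∃ g, D' = acts g D
  iseqv := ⟨fun D => ⟨fun _ => false, by
      ext m
      show m ∈ D ↔ act (fun _ => false) m ∈ D
      have : act (fun _ => false) m = m := by
        refine Prod.ext (Subtype.ext ?_) rfl
        ext x
        show xr (fun _ => false) x ∈ m.1.1 ↔ x ∈ m.1.1
        have : xr (fun _ => false) x = x := by
          funext i
          simp [xr]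
        rw [this]
      rw [this]⟩,
    by
      rintro D D' ⟨g, rfl⟩
      exact ⟨g, (acts_acts g D).symm⟩,
    by
      rintro D D' D'' ⟨g, rfl⟩ ⟨h, rfl⟩
      exact ⟨xr h g, (acts_xr h g D).symm⟩⟩

/-- The representative of the orbit. -/
noncomputable def rep (D : Set M) : Set M := (Quotient.mk orb D).out

theorem rep_spec (D : Set M) : ∃ g, D = acts g (rep D) := by
  have : orb.r (rep D) D := Quotient.exact ((Quotient.mk orb D).out_eq)
  exact this

theorem rep_acts (g : Om) (D : Set M) : rep (acts g D) = rep D := by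
  unfold rep
  congr 1
  exact (Quotient.sound (⟨g, rfl⟩ : orb.r D (acts g D))).symm

open Classical in
/-- A set as an element of `FC` (junk value if it has no finite support). -/
noncomputable def mk (C : Set Om) : FC := if h : FS C then ⟨C, h⟩ else ⟨∅, 0, fun _ _ _ => Iff.rfl⟩

theorem mk_val {C : Set Om} (h : FS C) : (mk C).1 = C := by
  unfold mk
  rw [dif_pos h]

open Classical in
/-- A numbering of a countable set (junk value if it is not countable). -/
noncomputable def num (s : Set (Set M)) : Set M → ℕ :=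
  if h : s.Countable then (Set.countable_iff_exists_injOn.1 h).choose else fun _ => 0

theorem num_injOn {s : Set (Set M)} (h : s.Countable) : Set.InjOn (num s) s := by
  unfold num
  rw [dif_pos h]
  exact (Set.countable_iff_exists_injOn.1 h).choose_spec

/-- The first family with the slice `D`. -/
noncomputable def lv (t : ℕ → Set (ℕ → M)) (D : Set M) : ℕ := sInf {k | D ∈ den (t k)}

/-- The object assigned to `D` by a table of families. -/
noncomputable def cd (t : ℕ → Set (ℕ → M)) (D : Set M) : M :=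
  (mk {g | acts g (rep D) = D}, Nat.pair (lv t D) (num (den (t (lv t D))) (rep D)))

theorem lv_le {t : ℕ → Set (ℕ → M)} {D : Set M} {k : ℕ} (h : D ∈ den (t k)) : lv t D ≤ k :=
  Nat.sInf_le h

theorem lv_mem {t : ℕ → Set (ℕ → M)} {D : Set M} {k : ℕ} (h : D ∈ den (t k)) :
    D ∈ den (t (lv t D)) := Nat.sInf_mem (s := {k | D ∈ den (t k)}) ⟨k, h⟩

theorem lv_congr {t t' : ℕ → Set (ℕ → M)} {D : Set M} {k : ℕ} (h : D ∈ den (t k))
    (htt : ∀ j ≤ k, t j = t' j) : lv t D = lv t' D := by
  have h' : D ∈ den (t' k) := by rwa [← htt k le_rfl]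
  apply le_antisymm
  · apply lv_le
    rw [htt _ (lv_le h')]
    exact lv_mem h'
  · apply lv_le
    rw [← htt _ (lv_le h)]
    exact lv_mem h

theorem cd_congr {t t' : ℕ → Set (ℕ → M)} {D : Set M} {k : ℕ} (h : D ∈ den (t k))
    (htt : ∀ j ≤ k, t j = t' j) : cd t D = cd t' D := by
  unfold cd
  rw [← lv_congr h htt, ← htt _ (lv_le h)]

/-- Equivariance of the assignment. -/
theorem cd_acts {t : ℕ → Set (ℕ → M)} {D : Set M} {k : ℕ} (hD : D ∈ den (t k))
    (hinv : ∀ j ≤ k, Inv (t j)) (hfs : ∀ j ≤ k, FSup (t j)) (g : Om) :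
    cd t (acts g D) = act g (cd t D) := by
  have hD' : acts g D ∈ den (t k) := den_acts (hinv k le_rfl) hD g
  have hlv : lv t (acts g D) = lv t D := by
    apply le_antisymm
    · exact lv_le (den_acts (hinv _ (lv_le hD)) (lv_mem hD) g)
    · have := den_acts (hinv _ (lv_le hD')) (lv_mem hD') g
      rw [acts_acts] at this
      exact lv_le this
  obtain ⟨h₀, hh₀⟩ := rep_spec D
  have hrepD : rep D ∈ den (t k) := by
    have := den_acts (hinv k le_rfl) hD h₀
    rw [hh₀, acts_acts] at this
    exact this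
  unfold cd
  rw [hlv, rep_acts]
  refine Prod.ext (Subtype.ext ?_) rfl
  show (mk _).1 = tr g (mk _).1
  rw [mk_val (fs_transporter (hinv k le_rfl) (hfs k le_rfl) hrepD),
    mk_val (fs_transporter (hinv k le_rfl) (hfs k le_rfl) hrepD)]
  ext h
  show acts h (rep D) = acts g D ↔ acts (xr g h) (rep D) = D
  rw [acts_xr]
  constructor
  · intro e
    rw [e, acts_acts]
  · intro e
    rw [← e, acts_acts, e]

/-- Injectivity of the assignment. -/
theorem cd_inj {t : ℕ → Set (ℕ → M)} {D D' : Set M} {k k' : ℕ} (hD : D ∈ den (t k))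
    (hD' : D' ∈ den (t k')) (hinv : ∀ j, Inv (t j)) (hfs : ∀ j, FSup (t j))
    (h : cd t D = cd t D') : D = D' := by
  obtain ⟨h₀, hh₀⟩ := rep_spec D
  obtain ⟨h₁, hh₁⟩ := rep_spec D'
  have hrep : rep D ∈ den (t (lv t D)) := by
    have := den_acts (hinv _) (lv_mem hD) h₀
    rwa [hh₀, acts_acts, ← hh₀] at this
  have hrep' : rep D' ∈ den (t (lv t D')) := by
    have := den_acts (hinv _) (lv_mem hD') h₁
    rwa [hh₁, acts_acts, ← hh₁] at this
  unfold cd at h
  rw [Prod.mk.injEq] at h
  obtain ⟨h1, h2⟩ := h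
  have h3 := congrArg Nat.unpair h2
  rw [Nat.unpair_pair, Nat.unpair_pair, Prod.mk.injEq] at h3
  obtain ⟨h4, h5⟩ := h3
  have h6 : rep D = rep D' := by
    rw [← h4] at h5 hrep'
    exact num_injOn (countable_den (hfs _)) hrep hrep' h5
  have h7 := congrArg Subtype.val h1
  rw [mk_val (fs_transporter (hinv _) (hfs _) hrep),
    mk_val (fs_transporter (hinv _) (hfs _) hrep')] at h7
  have h8 : h₀ ∈ {g | acts g (rep D') = D'} := by
    rw [← h7]
    exact hh₀.symm
  have h9 : acts h₀ (rep D') = D' := h8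
  rw [← h9, ← h6]
  exact hh₀

end Q204.BL
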