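import Pool.Agent.Q204.BL.Main

set_option autoImplicit false

/-!
# Failure of choice
-/

namespace Q204.BL

open Filter

/-- A fixed object. -/
noncomputable def o₀ : N := ((fun _ => ix 0 : ℕ → M) : N)

/-- The assignment of the pairing relation to all relation variables. -/
noncomputable def V₀ : RA NN := fun _ _ => ⟨{x | pre x (fun _ => o₀) ∈ str (E 0)}, 0, fun _ => o₀, rfl⟩

theorem mem_V₀ {y x : N} : (![y, x] : Fin 2 → N) ∈ (V₀ 1 0).1 ↔
    ∀ᶠ t in (U : Filter ℕ), Pi (rp y t) (rp x t) := by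
  show (∀ᶠ t in (U : Filter ℕ), hat (pre (![y, x] : Fin 2 → N) (fun _ => o₀)) t ∈ E 0) ↔ _
  rw [E_zero]
  rfl

/-- `π(x₁, x₀)`. -/
def piY : AF := .app 1 0 ![.ov 1, .ov 0]

/-- The formula: if some `y` is paired with `x₀`, then some element of `P` is paired with `x₀` and
`P` has at most one element. -/
def phi : AF := .imp (AF.ex 1 piY) ((AF.ex 1 ((AF.app 0 0 (fun _ => .ov 1)).and piY)).and
  (.all 1 (.all 2 (.imp (.app 0 0 (fun _ => .ov 1)) (.imp (.app 0 0 (fun _ => .ov 2))
    (.eq (.ov 1) (.ov 2)))))))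

theorem sat_piY {V : RA NN} {v : ℕ → N} : piY.Sat V v ↔ (![v 1, v 0] : Fin 2 → N) ∈ (V 1 0).1 := by
  show (fun i => ((![Tm.ov 1, Tm.ov 0] : Fin 2 → Tm) i).val V v) ∈ (V 1 0).1 ↔ _
  have : (fun i => ((![Tm.ov 1, Tm.ov 0] : Fin 2 → Tm) i).val V v) = (![v 1, v 0] : Fin 2 → N) := by
    funext i
    match i with
    | 0 => rfl
    | 1 => rfl
  rw [this]

theorem sat_phi (P : NN.S 0) (x : Fin 1 → N) (v : ℕ → N) :
    phi.Sat (V₀.upd 0 0 P) (ovr x v) ↔ ((∃ y, (![y, x 0] : Fin 2 → N) ∈ (V₀ 1 0).1) →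
      (∃ y, (fun _ => y) ∈ P.1 ∧ (![y, x 0] : Fin 2 → N) ∈ (V₀ 1 0).1) ∧
      ∀ y z, (fun _ => y) ∈ P.1 → (fun _ => z) ∈ P.1 → y = z) := by
  have h1 : (V₀.upd 0 0 P) 1 0 = V₀ 1 0 := by
    unfold RA.upd
    rw [Function.update_of_ne (by norm_num)]
  have h2 : (V₀.upd 0 0 P) 0 0 = P := by
    unfold RA.upd
    rw [Function.update_self, Function.update_self]
  have h3 : ∀ y, piY.Sat (V₀.upd 0 0 P) (Function.update (ovr x v) 1 y) ↔
      (![y, x 0] : Fin 2 → N) ∈ (V₀ 1 0).1 := by
    intro y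
    rw [sat_piY, h1]
    have e1 : Function.update (ovr x v) 1 y 1 = y := Function.update_self _ _ _
    have e2 : Function.update (ovr x v) 1 y 0 = x 0 := by
      rw [Function.update_of_ne (by norm_num)]
      rfl
    rw [e1, e2]
  have h4 : ∀ y, (AF.app 0 0 (fun _ => .ov 1)).Sat (V₀.upd 0 0 P) (Function.update (ovr x v) 1 y) ↔
      (fun _ => y) ∈ P.1 := by
    intro y
    show (fun _ => Function.update (ovr x v) 1 y 1) ∈ ((V₀.upd 0 0 P) 0 0).1 ↔ _
    rw [h2]
    have e1 : Function.update (ovr x v) 1 y 1 = y := Function.update_self _ _ _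
    rw [e1]
  show ((AF.ex 1 piY).Sat _ _ → (AF.and _ _).Sat _ _) ↔ _
  rw [AF.sat_and, AF.sat_ex, AF.sat_ex]
  apply imp_congr
  · exact exists_congr h3
  · apply and_congr
    · refine exists_congr fun y => ?_
      rw [AF.sat_and, h3, h4]
    · refine forall_congr' fun y => forall_congr' fun z => ?_
      show ((fun _ => Function.update (Function.update (ovr x v) 1 y) 2 z 1) ∈
        ((V₀.upd 0 0 P) 0 0).1 → (fun _ => Function.update (Function.update (ovr x v) 1 y) 2 z 2) ∈
        ((V₀.upd 0 0 P) 0 0).1 → Function.update (Function.update (ovr x v) 1 y) 2 z 1 =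
        Function.update (Function.update (ovr x v) 1 y) 2 z 2) ↔ _
      have e1 : Function.update (Function.update (ovr x v) 1 y) 2 z 1 = y := by
        rw [Function.update_of_ne (by norm_num)]
        exact Function.update_self _ _ _
      have e2 : Function.update (Function.update (ovr x v) 1 y) 2 z 2 = z :=
        Function.update_self _ _ _
      rw [e1, e2, h2]

theorem singleton_mem (y : N) : {x : Fin 1 → N | x 0 = y} ∈ SN 0 := by
  obtain ⟨k, hk⟩ := isD_eq01
  refine ⟨k, fun _ => y, ?_⟩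
  ext x
  show x 0 = y ↔ pre x (fun _ => y) ∈ str (E k)
  rw [← hk, pre_one]
  rfl

theorem not_choice : ¬ ArithChoice NN := by
  intro h
  obtain ⟨⟨R, k, v, hR⟩, hR'⟩ := h 0 0 phi V₀ (fun _ => o₀) (by
    intro x
    by_cases hx : ∃ y, (![y, x 0] : Fin 2 → N) ∈ (V₀ 1 0).1
    · obtain ⟨y, hy⟩ := hx
      refine ⟨⟨_, singleton_mem y⟩, ?_⟩
      show phi.Sat _ _
      rw [sat_phi]
      refine fun _ => ⟨⟨y, rfl, hy⟩, fun a b ha hb => ?_⟩
      have ha' : a = y := ha
      have hb' : b = y := hb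
      rw [ha', hb']
    · refine ⟨⟨_, singleton_mem o₀⟩, ?_⟩
      show phi.Sat _ _
      rw [sat_phi]
      exact fun h => absurd h hx)
  choose it hit using fun t => no_split k (hat v t)
  set x₀ : N := ((fun t => ix (it t) : ℕ → M) : N) with hx₀
  set yb : Bool → N := fun b => ((fun t => ab (it t) b : ℕ → M) : N) with hyb
  have hpi : ∀ b, (![yb b, x₀] : Fin 2 → N) ∈ (V₀ 1 0).1 := by
    intro b
    rw [mem_V₀]
    filter_upwards [rp_coe (fun t => ab (it t) b), rp_coe (fun t => ix (it t))] with t h1 h2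
    rw [h1, h2]
    exact ⟨_, _, rfl, rfl⟩
  have hpi' : ∀ y : N, (![y, x₀] : Fin 2 → N) ∈ (V₀ 1 0).1 → y = yb true ∨ y = yb false := by
    intro y hy
    rw [mem_V₀] at hy
    have h1 : ∀ᶠ t in (U : Filter ℕ), rp y t = ab (it t) true ∨ rp y t = ab (it t) false := by
      filter_upwards [hy, rp_coe (fun t => ix (it t))] with t h1 h2
      rw [h2] at h1
      obtain ⟨i, b, h3, h4⟩ := h1
      rw [ix_inj h4, h3]
      cases b
      · exact Or.inr rfl
      · exact Or.inl rfl
    rcases Ultrafilter.eventually_or.1 h1 with h2 | h2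
    · left
      rw [← coe_rp y]
      exact Germ.coe_eq.2 h2
    · right
      rw [← coe_rp y]
      exact Germ.coe_eq.2 h2
  have hne : yb true ≠ yb false := by
    intro h1
    obtain ⟨t, ht⟩ := (Germ.coe_eq.1 h1).exists
    exact absurd (ab_inj ht).2 (by simp)
  have hmem : ∀ b, cons x₀ (cons (yb b) v) ∈ str (E k) ↔
      ∀ᶠ t in (U : Filter ℕ), cons (ix (it t)) (cons (ab (it t) b) (hat v t)) ∈ E k := by
    intro b
    rw [mem_str_of (inv_fsup k).2 (r := fun i => cons (fun t => ix (it t))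
      (cons (fun t => ab (it t) b) (fun i => rp (v i))) i) (fun i => by
        match i with
        | 0 => rfl
        | 1 => rfl
        | i + 2 => exact (coe_rp _).symm)]
    apply eventually_congr
    filter_upwards with t
    have e : (fun i => (cons (fun t => ix (it t))
      (cons (fun t => ab (it t) b) (fun i => rp (v i))) i : ℕ → M) t) =
        cons (ix (it t)) (cons (ab (it t) b) (hat v t)) := by
      funext i
      match i with
      | 0 => rfl
      | 1 => rfl
      | i + 2 => rfl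
    rw [e]
  have hsplit : cons x₀ (cons (yb true) v) ∈ str (E k) ↔
      cons x₀ (cons (yb false) v) ∈ str (E k) := by
    rw [hmem, hmem]
    exact eventually_congr (Eventually.of_forall hit)
  -- the section of `R`
  obtain ⟨k', hk'⟩ := (isD_str k).sub (fun i => if i = 0 then 1 else if i = 1 then 0 else i)
  have hsec : ∀ y : Fin 1 → N, pre y (cons x₀ v) ∈ str (E k') ↔
      cons x₀ (cons (y 0) v) ∈ str (E k) := by
    intro y
    rw [← hk', pre_one]
    show (fun i => (cons (y 0) (cons x₀ v) : ℕ → N) (if i = 0 then 1 else if i = 1 then 0 else i))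
      ∈ str (E k) ↔ _
    have : (fun i => (cons (y 0) (cons x₀ v) : ℕ → N)
        (if i = 0 then 1 else if i = 1 then 0 else i)) = cons x₀ (cons (y 0) v) := by
      funext i
      match i with
      | 0 => rfl
      | 1 => rfl
      | i + 2 => rfl
    rw [this]
  have hjoin : ∀ (y : Fin 1 → N), join (k := 0) (m := 0) (fun _ => x₀) y ∈ R ↔
      cons x₀ (cons (y 0) v) ∈ str (E k) := by
    intro y
    rw [hR]
    show pre (join (k := 0) (m := 0) (fun _ => x₀) y) v ∈ str (E k) ↔ _
    have : pre (join (k := 0) (m := 0) (fun _ => x₀) y) v = cons x₀ (cons (y 0) v) := by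
      funext i
      match i with
      | 0 => rfl
      | 1 => rfl
      | i + 2 => rfl
    rw [this]
  have h1 := hR' (fun _ => x₀) ⟨{x | pre x (cons x₀ v) ∈ str (E k')}, k', cons x₀ v, rfl⟩
    (fun y => by
      show pre y (cons x₀ v) ∈ str (E k') ↔ join (k := 0) (m := 0) (fun _ => x₀) y ∈ R
      rw [hsec, hjoin])
  have h2 : phi.Sat (V₀.upd 0 0 ⟨{x | pre x (cons x₀ v) ∈ str (E k')}, k', cons x₀ v, rfl⟩)
    (ovr (fun _ : Fin 1 => x₀) (fun _ => o₀)) := h1
  rw [sat_phi] at h2
  obtain ⟨⟨y, hy1, hy2⟩, huniq⟩ := h2 ⟨_, hpi true⟩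
  have hy3 : cons x₀ (cons y v) ∈ str (E k) := (hsec (fun _ => y)).1 hy1
  have hboth : ∀ b, cons x₀ (cons (yb b) v) ∈ str (E k) := by
    rcases hpi' y hy2 with rfl | rfl
    · intro b
      cases b
      · exact hsplit.1 hy3
      · exact hy3
    · intro b
      cases b
      · exact hy3
      · exact hsplit.2 hy3
  exact hne (huniq _ _ ((hsec (fun _ => yb true)).2 (hboth true))
    ((hsec (fun _ => yb false)).2 (hboth false)))

end Q204.BL
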