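import Mathlib

set_option autoImplicit false

/-!
# Structures for Basic Law V and subsystems of second-order logic
-/

namespace Q204.BL

/-- A structure `(M, S_1, S_2, …, ∂)`: `S n` is the sort of `(n+1)`-ary relations. -/
structure Str where
  /-- The objects. -/
  M : Type
  ne : Nonempty M
  /-- The `(n+1)`-ary relations. -/
  S : ∀ n : ℕ, Set (Set (Fin (n + 1) → M))
  /-- The function `∂` from sets to objects. -/
  d : S 0 → M

/-- Object terms: object variables `x_i` and `∂ X_k`. -/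
inductive Tm : Type
  | ov (i : ℕ) : Tm
  | bd (k : ℕ) : Tm

/-- Arithmetical formulas; `app n k ts` is the atomic formula `R(ts)`, where `R` is the `k`-th
variable for `(n+1)`-ary relations. -/
inductive AF : Type
  | eq (s t : Tm) : AF
  | app (n k : ℕ) (ts : Fin (n + 1) → Tm) : AF
  | bot : AF
  | imp (φ ψ : AF) : AF
  | all (i : ℕ) (φ : AF) : AF

/-- Assignments of the relation variables. -/
abbrev RA (𝔐 : Str) : Type := ∀ n : ℕ, ℕ → 𝔐.S n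

/-- The value of a term. -/
def Tm.val {𝔐 : Str} (V : RA 𝔐) (v : ℕ → 𝔐.M) : Tm → 𝔐.M
  | .ov i => v i
  | .bd k => 𝔐.d (V 0 k)

/-- Satisfaction of arithmetical formulas. -/
def AF.Sat {𝔐 : Str} (V : RA 𝔐) : AF → (ℕ → 𝔐.M) → Prop
  | .eq s t, v => s.val V v = t.val V v
  | .app n k ts, v => (fun i => (ts i).val V v) ∈ (V n k : Set (Fin (n + 1) → 𝔐.M))
  | .bot, _ => False
  | .imp φ ψ, v => φ.Sat V v → ψ.Sat V v
  | .all i φ, v => ∀ a : 𝔐.M, φ.Sat V (Function.update v i a)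

/-- Change of the value of one relation variable. -/
def RA.upd {𝔐 : Str} (V : RA 𝔐) (n k : ℕ) (R : 𝔐.S n) : RA 𝔐 :=
  Function.update V n (Function.update (V n) k R)

/-- Satisfaction of the `Σ¹₁` formula with the given block of quantified relation variables
(arity minus one, index) and the given arithmetical matrix. -/
def SatEx {𝔐 : Str} (φ : AF) : List (ℕ × ℕ) → RA 𝔐 → (ℕ → 𝔐.M) → Prop
  | [], V, v => φ.Sat V v
  | p :: l, V, v => ∃ R : 𝔐.S p.1, SatEx φ l (V.upd p.1 p.2 R) v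

/-- Satisfaction of the `Π¹₁` formula with the given block of quantified relation variables and
the given arithmetical matrix. -/
def SatAll {𝔐 : Str} (φ : AF) : List (ℕ × ℕ) → RA 𝔐 → (ℕ → 𝔐.M) → Prop
  | [], V, v => φ.Sat V v
  | p :: l, V, v => ∀ R : 𝔐.S p.1, SatAll φ l (V.upd p.1 p.2 R) v

/-- The values of `x_0, …, x_(n-1)` are changed to the given tuple. -/
def ovr {α : Type} {n : ℕ} (x : Fin n → α) (v : ℕ → α) : ℕ → α :=
  fun i => if h : i < n then x ⟨i, h⟩ else v i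

/-- Concatenation of tuples. -/
def join {α : Type} {k m : ℕ} (x : Fin (k + 1) → α) (y : Fin (m + 1) → α) :
    Fin (k + m + 1 + 1) → α :=
  fun i => if h : i.1 < k + 1 then x ⟨i.1, h⟩ else y ⟨i.1 - (k + 1), by omega⟩

/-- Basic Law V. -/
def BLV (𝔐 : Str) : Prop := ∀ X Y : 𝔐.S 0, 𝔐.d X = 𝔐.d Y ↔ ∀ x, x ∈ X.1 ↔ x ∈ Y.1

/-- Arithmetical comprehension: `∃ R ∀ x (R x ↔ φ(x))` for arithmetical `φ`, where `x` is the
tuple `(x_0, …, x_n)` and all other variables of `φ` are parameters. -/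
def ArithComp (𝔐 : Str) : Prop :=
  ∀ (n : ℕ) (φ : AF) (V : RA 𝔐) (v : ℕ → 𝔐.M), ∃ R : 𝔐.S n, ∀ x, x ∈ R.1 ↔ φ.Sat V (ovr x v)

/-- `Δ¹₁`-comprehension. -/
def DeltaComp (𝔐 : Str) : Prop :=
  ∀ (n : ℕ) (l l' : List (ℕ × ℕ)) (φ ψ : AF) (V : RA 𝔐) (v : ℕ → 𝔐.M),
    (∀ x : Fin (n + 1) → 𝔐.M, SatEx φ l V (ovr x v) ↔ SatAll ψ l' V (ovr x v)) →
    ∃ R : 𝔐.S n, ∀ x, x ∈ R.1 ↔ SatEx φ l V (ovr x v)

/-- `Σ¹₁`-choice: if `∀ x ∃ P φ(x, P)` then there is `R` such that for all `x` and all `P` with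
`P = R_x` the formula `φ(x, P)` holds; `φ` is `Σ¹₁`, `x` is the tuple `(x_0, …, x_k)`, `P` is the
zeroth variable for `(m+1)`-ary relations and all other variables are parameters. -/
def SigmaChoice (𝔐 : Str) : Prop :=
  ∀ (k m : ℕ) (l : List (ℕ × ℕ)) (φ : AF) (V : RA 𝔐) (v : ℕ → 𝔐.M),
    (∀ x : Fin (k + 1) → 𝔐.M, ∃ P : 𝔐.S m, SatEx φ l (V.upd m 0 P) (ovr x v)) →
    ∃ R : 𝔐.S (k + m + 1), ∀ (x : Fin (k + 1) → 𝔐.M) (P : 𝔐.S m),
      (∀ y, y ∈ P.1 ↔ join x y ∈ R.1) → SatEx φ l (V.upd m 0 P) (ovr x v)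

/-- The choice schema for arithmetical formulas. -/
def ArithChoice (𝔐 : Str) : Prop :=
  ∀ (k m : ℕ) (φ : AF) (V : RA 𝔐) (v : ℕ → 𝔐.M),
    (∀ x : Fin (k + 1) → 𝔐.M, ∃ P : 𝔐.S m, φ.Sat (V.upd m 0 P) (ovr x v)) →
    ∃ R : 𝔐.S (k + m + 1), ∀ (x : Fin (k + 1) → 𝔐.M) (P : 𝔐.S m),
      (∀ y, y ∈ P.1 ↔ join x y ∈ R.1) → φ.Sat (V.upd m 0 P) (ovr x v)

theorem SigmaChoice.arith {𝔐 : Str} (h : SigmaChoice 𝔐) : ArithChoice 𝔐 :=
  fun k m φ V v hP => h k m [] φ V v hP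

/-! ### Derived connectives -/

/-- Negation. -/
def AF.not (φ : AF) : AF := .imp φ .bot

/-- Conjunction. -/
def AF.and (φ ψ : AF) : AF := (AF.imp φ ψ.not).not

/-- Existential quantification. -/
def AF.ex (i : ℕ) (φ : AF) : AF := (AF.all i φ.not).not

section
variable {𝔐 : Str} {V : RA 𝔐} {v : ℕ → 𝔐.M} {φ ψ : AF}

theorem AF.sat_not : φ.not.Sat V v ↔ ¬ φ.Sat V v := Iff.rfl

theorem AF.sat_and : (φ.and ψ).Sat V v ↔ φ.Sat V v ∧ ψ.Sat V v := by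
  show ¬ (φ.Sat V v → ¬ ψ.Sat V v) ↔ _
  tauto

theorem AF.sat_ex {i : ℕ} : (AF.ex i φ).Sat V v ↔ ∃ a, φ.Sat V (Function.update v i a) := by
  show (¬ ∀ a, ¬ φ.Sat V (Function.update v i a)) ↔ _
  push Not
  rfl

theorem satAll_iff (ψ : AF) (l : List (ℕ × ℕ)) (V : RA 𝔐) (v : ℕ → 𝔐.M) :
    SatAll ψ l V v ↔ ¬ SatEx ψ.not l V v := by
  induction l generalizing V with
  | nil =>
    show ψ.Sat V v ↔ ¬ ¬ ψ.Sat V v
    rw [not_not]
  | cons p l ih =>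
    show (∀ R, SatAll ψ l (V.upd p.1 p.2 R) v) ↔ ¬ ∃ R, SatEx ψ.not l (V.upd p.1 p.2 R) v
    rw [not_exists]
    exact forall_congr' fun R => ih _

end

end Q204.BL
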