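import Pool.Agent.Q204.BL.Ultra
import Pool.Agent.Q204.BL.Syntax

set_option autoImplicit false

/-!
# A model of `Δ¹₁-BL₀` without `Σ¹₁`-choice
-/

namespace Q204.BL

open Filter

theorem pre_one (x : Fin 1 → N) (v : ℕ → N) : pre x v = cons (x 0) v := by
  funext i
  cases i with
  | zero => rfl
  | succ i =>
    show (if h : i + 1 < 1 then x ⟨i + 1, h⟩ else v (i + 1 - 1)) = v i
    rw [dif_neg (by omega)]
    rfl

theorem dN_eq_iff {k k' : ℕ} {v v' : ℕ → N} : dN k v = dN k' v' ↔
    ∀ a, cons a v ∈ str (E k) ↔ cons a v' ∈ str (E k') := by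
  have hmem : ∀ (k : ℕ) (v : ℕ → N) (x : ℕ → M), cons (x : N) v ∈ str (E k) ↔
      ∀ᶠ t in (U : Filter ℕ), x t ∈ sl (E k) (hat v t) := by
    intro k v x
    rw [mem_str_of (inv_fsup k).2 (r := fun i => cons x (fun i => rp (v i)) i) (fun i => by
      cases i with
      | zero => rfl
      | succ i => exact (coe_rp _).symm)]
    apply eventually_congr
    filter_upwards with t
    have e : (fun i => (cons x (fun i => rp (v i)) i : ℕ → M) t) = cons (x t) (hat v t) := by
      funext i
      cases i <;> rfl
    rw [e]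
    rfl
  constructor
  · intro h a
    have h1 : ∀ᶠ t in (U : Filter ℕ), del (sl (E k) (hat v t)) = del (sl (E k') (hat v' t)) :=
      Germ.coe_eq.1 h
    rw [← coe_rp a, hmem, hmem]
    apply eventually_congr
    filter_upwards [h1] with t ht
    rw [del_inj ht]
  · intro h
    apply Germ.coe_eq.2
    by_contra hcon
    have h1 : ∀ᶠ t in (U : Filter ℕ), ¬ del (sl (E k) (hat v t)) = del (sl (E k') (hat v' t)) :=
      Ultrafilter.eventually_not.2 hcon
    have h2 : ∀ t, ∃ m, (¬ del (sl (E k) (hat v t)) = del (sl (E k') (hat v' t))) →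
        ¬ (m ∈ sl (E k) (hat v t) ↔ m ∈ sl (E k') (hat v' t)) := by
      intro t
      by_cases ht : sl (E k) (hat v t) = sl (E k') (hat v' t)
      · exact ⟨ix 0, fun h => absurd (by rw [ht]) h⟩
      · by_contra hc
        push Not at hc
        exact ht (Set.ext fun m => (hc m).2)
    choose x hx using h2
    have h3 := h (x : N)
    rw [hmem, hmem] at h3
    by_cases h4 : ∀ᶠ t in (U : Filter ℕ), x t ∈ sl (E k) (hat v t)
    · obtain ⟨t, ⟨ht1, ht2⟩, ht3⟩ := ((h1.and h4).and (h3.1 h4)).exists
      exact hx t ht1 ⟨fun _ => ht3, fun _ => ht2⟩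
    · have h5 := Ultrafilter.eventually_not.2 h4
      have h6 := Ultrafilter.eventually_not.2 (fun h' => h4 (h3.2 h'))
      obtain ⟨t, ⟨ht1, ht2⟩, ht3⟩ := ((h1.and h5).and h6).exists
      exact hx t ht1 ⟨fun h => absurd h ht2, fun h => absurd h ht3⟩

/-- The definable relations. -/
def SN (n : ℕ) : Set (Set (Fin (n + 1) → N)) := {R | ∃ k v, R = {x | pre x v ∈ str (E k)}}

/-- The object assigned to a definable set. -/
noncomputable def dS (X : Set (Fin 1 → N)) (h : X ∈ SN 0) : N := dN h.choose h.choose_spec.choose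

theorem dS_eq {X : Set (Fin 1 → N)} (hX : X ∈ SN 0) {k : ℕ} {v : ℕ → N}
    (h : X = {x | pre x v ∈ str (E k)}) : dS X hX = dN k v := by
  have h1 : X = {x | pre x hX.choose_spec.choose ∈ str (E hX.choose)} :=
    hX.choose_spec.choose_spec
  unfold dS
  rw [dN_eq_iff]
  intro a
  have e1 : (fun _ : Fin 1 => a) ∈ X ↔ cons a hX.choose_spec.choose ∈ str (E hX.choose) := by
    constructor
    · intro h2
      have h3 : (fun _ : Fin 1 => a) ∈ {x | pre x hX.choose_spec.choose ∈ str (E hX.choose)} :=
        h1 ▸ h2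
      have h4 : pre (fun _ : Fin 1 => a) hX.choose_spec.choose ∈ str (E hX.choose) := h3
      rwa [pre_one] at h4
    · intro h2
      have h3 : pre (fun _ : Fin 1 => a) hX.choose_spec.choose ∈ str (E hX.choose) := by
        rwa [pre_one]
      have h4 : (fun _ : Fin 1 => a) ∈ {x | pre x hX.choose_spec.choose ∈ str (E hX.choose)} := h3
      exact h1 ▸ h4
  have e2 : (fun _ : Fin 1 => a) ∈ X ↔ cons a v ∈ str (E k) := by
    constructor
    · intro h2
      have h3 : (fun _ : Fin 1 => a) ∈ {x | pre x v ∈ str (E k)} := h ▸ h2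
      have h4 : pre (fun _ : Fin 1 => a) v ∈ str (E k) := h3
      rwa [pre_one] at h4
    · intro h2
      have h3 : pre (fun _ : Fin 1 => a) v ∈ str (E k) := by
        rwa [pre_one]
      have h4 : (fun _ : Fin 1 => a) ∈ {x | pre x v ∈ str (E k)} := h3
      exact h ▸ h4
  rw [← e1, e2]

theorem dS_inj {X Y : Set (Fin 1 → N)} (hX : X ∈ SN 0) (hY : Y ∈ SN 0) :
    dS X hX = dS Y hY ↔ ∀ x, x ∈ X ↔ x ∈ Y := by
  obtain ⟨k, v, h⟩ := id hX
  obtain ⟨k', v', h'⟩ := id hY
  rw [dS_eq hX h, dS_eq hY h', dN_eq_iff]
  constructor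
  · intro h2 x
    rw [h, h']
    have h3 : pre x v ∈ str (E k) ↔ pre x v' ∈ str (E k') := by
      rw [pre_one, pre_one]
      exact h2 _
    exact h3
  · intro h2 a
    have h3 := h2 (fun _ => a)
    rw [h, h'] at h3
    have h4 : pre (fun _ : Fin 1 => a) v ∈ str (E k) ↔ pre (fun _ : Fin 1 => a) v' ∈ str (E k') :=
      h3
    rwa [pre_one, pre_one] at h4

/-- The structure. -/
noncomputable abbrev NN : Str where
  M := N
  ne := ⟨((fun _ => ix 0 : ℕ → M) : N)⟩
  S := SN
  d X := dS X.1 X.2

theorem blv : BLV NN := fun X Y => dS_inj X.2 Y.2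

/-- The even part. -/
def ev (W : ℕ → N) : ℕ → N := fun i => W (2 * i)

/-- The odd part. -/
def od (W : ℕ → N) : ℕ → N := fun i => W (2 * i + 1)

/-- The block of parameters of a relation variable. -/
def blk (P : ℕ → N) (n k : ℕ) : ℕ → N := fun l => P (Nat.pair (Nat.pair n k) l)

/-- The assignment of relation variables given by codes and parameters. -/
noncomputable def VV (c : ℕ → ℕ → ℕ) (P : ℕ → N) : RA NN :=
  fun n k => ⟨{x | pre x (blk P n k) ∈ str (E (c n k))}, _, _, rfl⟩

theorem exists_VV (V : RA NN) : ∃ c P, V = VV c P := by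
  choose c u hu using fun n k => (V n k).2
  refine ⟨c, fun i => u i.unpair.1.unpair.1 i.unpair.1.unpair.2 i.unpair.2, ?_⟩
  funext n k
  apply Subtype.ext
  show (V n k).1 = {x | pre x _ ∈ str (E (c n k))}
  rw [hu n k]
  have : blk (fun i => u i.unpair.1.unpair.1 i.unpair.1.unpair.2 i.unpair.2) n k = u n k := by
    funext l
    unfold blk
    simp only [Nat.unpair_pair]
  rw [this]

/-- The graph of a term. -/
theorem isD_term (c : ℕ → ℕ → ℕ) (t : Tm) :
    IsD {W | W 0 = t.val (VV c (od (tl W))) (ev (tl W))} := by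
  cases t with
  | ov i => exact isD_eq 0 (2 * i + 1)
  | bd k =>
    have h := (isD_ext (c 0 k)).sub
      (fun i => if i = 0 then 0 else 2 * Nat.pair (Nat.pair 0 k) (i - 1) + 1 + 1)
    have e : {W | W 0 = (Tm.bd k).val (VV c (od (tl W))) (ev (tl W))} =
        {v | (fun i => v (if i = 0 then 0 else 2 * Nat.pair (Nat.pair 0 k) (i - 1) + 1 + 1)) ∈
          {v : ℕ → N | v 0 = dN (c 0 k) (tl v)}} := by
      ext W
      have h1 : dS (VV c (od (tl W)) 0 k).1 (VV c (od (tl W)) 0 k).2 =
        dN (c 0 k) (blk (od (tl W)) 0 k) := dS_eq _ rfl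
      show W 0 = dS (VV c (od (tl W)) 0 k).1 (VV c (od (tl W)) 0 k).2 ↔ W 0 = dN (c 0 k) _
      rw [h1]
      exact Iff.rfl
    rwa [e]

/-- Definability of satisfaction. -/
theorem isD_sat (φ : AF) (c : ℕ → ℕ → ℕ) : IsD {W | φ.Sat (VV c (od W)) (ev W)} := by
  induction φ with
  | eq s t =>
    have h := ((isD_term c s).and (isD_term c t)).ex
    have e : {W | (AF.eq s t).Sat (VV c (od W)) (ev W)} = {v | ∃ a, cons a v ∈
        {v | v ∈ {W | W 0 = s.val (VV c (od (tl W))) (ev (tl W))} ∧
          v ∈ {W | W 0 = t.val (VV c (od (tl W))) (ev (tl W))}}} := by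
      ext W
      constructor
      · intro h
        exact ⟨s.val (VV c (od W)) (ev W), rfl, h⟩
      · rintro ⟨a, h1, h2⟩
        have h1' : a = s.val (VV c (od W)) (ev W) := h1
        have h2' : a = t.val (VV c (od W)) (ev W) := h2
        show s.val _ _ = t.val _ _
        rw [← h1', ← h2']
    rwa [e]
  | app n k ts =>
    set B : Set (ℕ → N) := {Y | Y ∈ {Y | ∀ i < n + 1, Y ∈ {Y | (fun j => Y (if j = 0 then i else
        j - 1 + (n + 1))) ∈ {W | W 0 = (if h : i < n + 1 then ts ⟨i, h⟩ else Tm.ov 0).val
          (VV c (od (tl W))) (ev (tl W))}}} ∧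
        Y ∈ {Y | (fun j => Y (if j < n + 1 then j else
          (n + 1) + (2 * Nat.pair (Nat.pair n k) (j - (n + 1)) + 1))) ∈ str (E (c n k))}} with hB
    have hBD : IsD B :=
      (isD_forall_lt (n + 1) fun i _ => (isD_term c _).sub _).and ((isD_str (c n k)).sub _)
    have h := hBD.exs (m := n + 1)
    have e : {W | (AF.app n k ts).Sat (VV c (od W)) (ev W)} =
        {v | ∃ x : Fin (n + 1) → N, pre x v ∈ B} := by
      ext W
      have k1 : ∀ (z : Fin (n + 1) → N) (i : Fin (n + 1)), (fun j => (pre z W : ℕ → N)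
          (if j = 0 then i.1 else j - 1 + (n + 1))) = cons (z i) W := by
        intro z i
        funext j
        cases j with
        | zero =>
          show (if h : i.1 < n + 1 then z ⟨i.1, h⟩ else W (i.1 - (n + 1))) = z i
          rw [dif_pos i.2]
        | succ j =>
          show (if h : (j + 1 - 1 + (n + 1)) < n + 1 then _ else W (j + 1 - 1 + (n + 1) - (n + 1)))
            = W j
          rw [dif_neg (by omega)]
          congr 1
          omega
      have k2 : ∀ z : Fin (n + 1) → N, (fun j => (pre z W : ℕ → N) (if j < n + 1 then j else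
          (n + 1) + (2 * Nat.pair (Nat.pair n k) (j - (n + 1)) + 1))) = pre z (blk (od W) n k) := by
        intro z
        funext j
        by_cases hj : j < n + 1
        · simp only [hj, if_true]
          unfold pre
          rw [dif_pos hj, dif_pos hj]
        · simp only [hj, if_false]
          unfold pre
          rw [dif_neg (by omega), dif_neg hj]
          show W _ = W _
          congr 1
          omega
      constructor
      · intro h
        refine ⟨fun i => (ts i).val (VV c (od W)) (ev W), fun i hi => ?_, ?_⟩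
        · have h3 : cons ((ts ⟨i, hi⟩).val (VV c (od W)) (ev W)) W ∈
              {W | W 0 = (if h : i < n + 1 then ts ⟨i, h⟩ else Tm.ov 0).val
                (VV c (od (tl W))) (ev (tl W))} := by
            rw [dif_pos hi]
            rfl
          rw [← k1 (fun i => (ts i).val (VV c (od W)) (ev W)) ⟨i, hi⟩] at h3
          exact h3
        · have h3 : pre (fun i => (ts i).val (VV c (od W)) (ev W)) (blk (od W) n k) ∈
              str (E (c n k)) := h
          rw [← k2 (fun i => (ts i).val (VV c (od W)) (ev W))] at h3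
          exact h3
      · rintro ⟨z, h1, h2⟩
        have hz : z = fun i => (ts i).val (VV c (od W)) (ev W) := by
          funext i
          have h3 : (fun j => (pre z W : ℕ → N) (if j = 0 then i.1 else j - 1 + (n + 1))) ∈
            {W | W 0 = (if h : i.1 < n + 1 then ts ⟨i.1, h⟩ else Tm.ov 0).val
              (VV c (od (tl W))) (ev (tl W))} := h1 i.1 i.2
          rw [k1] at h3
          have h4 : z i = (if h : i.1 < n + 1 then ts ⟨i.1, h⟩ else Tm.ov 0).val
              (VV c (od W)) (ev W) := h3
          rw [dif_pos i.2] at h4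
          exact h4
        have h5 : (fun j => (pre z W : ℕ → N) (if j < n + 1 then j else
          (n + 1) + (2 * Nat.pair (Nat.pair n k) (j - (n + 1)) + 1))) ∈ str (E (c n k)) := h2
        rw [k2] at h5
        have h6 : z ∈ {x | pre x (blk (od W) n k) ∈ str (E (c n k))} := h5
        rw [hz] at h6
        exact h6
    rwa [e]
  | bot => exact isD_bot
  | imp φ ψ ih1 ih2 => exact ih1.imp ih2
  | all i φ ih =>
    have h := ih.all_update (2 * i)
    have e : {W | (AF.all i φ).Sat (VV c (od W)) (ev W)} =
        {W | ∀ a, Function.update W (2 * i) a ∈ {W | φ.Sat (VV c (od W)) (ev W)}} := by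
      ext W
      refine forall_congr' fun a => ?_
      have e1 : ev (Function.update W (2 * i) a) = Function.update (ev W) i a := by
        funext j
        unfold ev
        by_cases hj : j = i
        · subst hj
          simp
        · rw [Function.update_of_ne (by omega), Function.update_of_ne hj]
      have e2 : od (Function.update W (2 * i) a) = od W := by
        funext j
        unfold od
        rw [Function.update_of_ne (by omega)]
      show φ.Sat (VV c (od W)) (Function.update (ev W) i a) ↔
        φ.Sat (VV c (od (Function.update W (2 * i) a))) (ev (Function.update W (2 * i) a))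
      rw [e1, e2]
    rwa [e]

/-- `Σ¹₁` formulas are countable disjunctions of definable families. -/
theorem sigma (φ : AF) (l : List (ℕ × ℕ)) (c : ℕ → ℕ → ℕ) :
    ∃ A : ℕ → Set (ℕ → N), (∀ i, IsD (A i)) ∧
      ∀ W, SatEx φ l (VV c (od W)) (ev W) ↔ ∃ i, W ∈ A i := by
  induction l generalizing c with
  | nil => exact ⟨fun _ => _, fun _ => isD_sat φ c, fun W => ⟨fun h => ⟨0, h⟩, fun ⟨_, h⟩ => h⟩⟩
  | cons p l ih =>
    obtain ⟨n, k⟩ := p
    choose A hA hA' using fun j => ih (Function.update c n (Function.update (c n) k j))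
    set Z : Set ℕ := {m | ∃ i, m = 2 * Nat.pair (Nat.pair n k) i + 1} with hZ
    refine ⟨fun i => {W | ∃ W', (∀ m, m ∉ Z → W' m = W m) ∧ W' ∈ A i.unpair.1 i.unpair.2},
      fun i => (hA _ _).ex_block Z, fun W => ?_⟩
    have hev : ∀ W' : ℕ → N, (∀ m, m ∉ Z → W' m = W m) → ev W' = ev W := by
      intro W' h
      funext i
      exact h _ (by rintro ⟨j, hj⟩; omega)
    have hV : ∀ (W' : ℕ → N) (j : ℕ), (∀ m, m ∉ Z → W' m = W m) →
        VV (Function.update c n (Function.update (c n) k j)) (od W') =
          (VV c (od W)).upd n k ⟨{x | pre x (blk (od W') n k) ∈ str (E j)}, _, _, rfl⟩ := by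
      intro W' j h
      funext n' k'
      apply Subtype.ext
      by_cases hn : n' = n
      · subst hn
        by_cases hk : k' = k
        · subst hk
          unfold RA.upd VV
          simp only [Function.update_self]
        · unfold RA.upd VV
          simp only [Function.update_self, Function.update_of_ne hk]
          have : blk (od W') n' k' = blk (od W) n' k' := by
            funext i
            refine h _ ?_
            rintro ⟨i', hi'⟩
            have h1 : Nat.pair (Nat.pair n' k') i = Nat.pair (Nat.pair n' k) i' := by omega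
            rw [Nat.pair_eq_pair, Nat.pair_eq_pair] at h1
            exact hk h1.1.2
          rw [this]
      · unfold RA.upd VV
        simp only [Function.update_of_ne hn]
        have : blk (od W') n' k' = blk (od W) n' k' := by
          funext i
          refine h _ ?_
          rintro ⟨i', hi'⟩
          have h1 : Nat.pair (Nat.pair n' k') i = Nat.pair (Nat.pair n k) i' := by omega
          rw [Nat.pair_eq_pair, Nat.pair_eq_pair] at h1
          exact hn h1.1.1
        rw [this]
    constructor
    · rintro ⟨⟨R, j, u, rfl⟩, hR⟩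
      set W' : ℕ → N := fun m => if m % 2 = 1 ∧ (m / 2).unpair.1 = Nat.pair n k then
        u (m / 2).unpair.2 else W m with hW'
      have h1 : ∀ m, m ∉ Z → W' m = W m := by
        intro m hm
        rw [hW']
        simp only
        rw [if_neg]
        rintro ⟨h2, h3⟩
        refine hm ⟨(m / 2).unpair.2, ?_⟩
        rw [← h3, Nat.pair_unpair]
        omega
      have h2 : blk (od W') n k = u := by
        funext i
        show W' (2 * Nat.pair (Nat.pair n k) i + 1) = u i
        rw [hW']
        simp only
        have e1 : (2 * Nat.pair (Nat.pair n k) i + 1) / 2 = Nat.pair (Nat.pair n k) i := by omega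
        rw [if_pos ⟨by omega, by rw [e1, Nat.unpair_pair]⟩, e1, Nat.unpair_pair]
      have h3 := hV W' j h1
      have h4 : SatEx φ l (VV (Function.update c n (Function.update (c n) k j)) (od W')) (ev W') := by
        rw [h3, hev W' h1]
        simp only [h2]
        exact hR
      obtain ⟨i, hi⟩ := (hA' j W').1 h4
      refine ⟨Nat.pair j i, W', h1, ?_⟩
      rw [Nat.unpair_pair]
      exact hi
    · rintro ⟨i, W', h1, h2⟩
      have h4 := (hA' _ W').2 ⟨_, h2⟩
      rw [hV W' _ h1, hev W' h1] at h4
      exact ⟨_, h4⟩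

/-- `Δ¹₁`-comprehension. -/
theorem deltaComp : DeltaComp NN := by
  classical
  intro n l l' φ ψ V v h
  obtain ⟨c, P, rfl⟩ := exists_VV V
  obtain ⟨A, hA, hA'⟩ := sigma φ l c
  obtain ⟨B, hB, hB'⟩ := sigma ψ.not l' c
  set W : ℕ → N := fun i => if i % 2 = 0 then v (i / 2) else P (i / 2) with hW
  set e : ℕ → Option (Fin (n + 1)) := fun j =>
    if h : j % 2 = 0 ∧ j / 2 < n + 1 then some ⟨j / 2, h.2⟩ else none with he
  have hev : ∀ x : Fin (n + 1) → N, ev (fun j => (e j).elim (W j) x) = ovr x v := by
    intro x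
    funext i
    show (e (2 * i)).elim (W (2 * i)) x = ovr x v i
    unfold ovr
    by_cases hi : i < n + 1
    · have h1 : (2 * i) % 2 = 0 ∧ (2 * i) / 2 < n + 1 := by omega
      have h2 : e (2 * i) = some ⟨i, hi⟩ := by
        rw [he]
        simp only
        rw [dif_pos h1]
        congr 2
        omega
      rw [h2, dif_pos hi]
      rfl
    · have h1 : ¬ ((2 * i) % 2 = 0 ∧ (2 * i) / 2 < n + 1) := by omega
      have h2 : e (2 * i) = none := by
        rw [he]
        simp only
        rw [dif_neg h1]
      rw [h2, dif_neg hi]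
      show W (2 * i) = v i
      rw [hW]
      simp only
      rw [if_pos (by omega)]
      congr 1
      omega
  have hod : ∀ x : Fin (n + 1) → N, od (fun j => (e j).elim (W j) x) = P := by
    intro x
    funext i
    show (e (2 * i + 1)).elim (W (2 * i + 1)) x = P i
    have h1 : ¬ ((2 * i + 1) % 2 = 0 ∧ (2 * i + 1) / 2 < n + 1) := by omega
    have h2 : e (2 * i + 1) = none := by
      rw [he]
      simp only
      rw [dif_neg h1]
    rw [h2]
    show W (2 * i + 1) = P i
    rw [hW]
    simp only
    rw [if_neg (by omega)]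
    congr 1
    omega
  have hS : ∀ x : Fin (n + 1) → N, SatEx φ l (VV c P) (ovr x v) ↔
      ∃ i, (fun j => (e j).elim (W j) x) ∈ A i := by
    intro x
    rw [← hA', hev, hod]
  have hT : ∀ x : Fin (n + 1) → N, ¬ SatEx φ l (VV c P) (ovr x v) ↔
      ∃ i, (fun j => (e j).elim (W j) x) ∈ B i := by
    intro x
    rw [h x, satAll_iff, not_not, ← hB', hev, hod]
  set C : ℕ → Set (ℕ → N) := fun i => if i % 2 = 0 then A (i / 2) else B (i / 2) with hC
  have hCD : ∀ i, IsD (C i) := by
    intro i
    rw [hC]
    simp only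
    split_ifs
    · exact hA _
    · exact hB _
  obtain ⟨m, hm⟩ := saturation e W hCD fun x => by
    by_cases hx : SatEx φ l (VV c P) (ovr x v)
    · obtain ⟨i, hi⟩ := (hS x).1 hx
      refine ⟨2 * i, ?_⟩
      rw [hC]
      simp only
      rw [if_pos (by omega)]
      have : 2 * i / 2 = i := by omega
      rw [this]
      exact hi
    · obtain ⟨i, hi⟩ := (hT x).1 hx
      refine ⟨2 * i + 1, ?_⟩
      rw [hC]
      simp only
      rw [if_neg (by omega)]
      have : (2 * i + 1) / 2 = i := by omega
      rw [this]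
      exact hi
  have hfin : ∀ x : Fin (n + 1) → N, SatEx φ l (VV c P) (ovr x v) ↔
      (fun j => (e j).elim (W j) x) ∈ {v | ∃ i < m, v ∈ A i} := by
    intro x
    constructor
    · intro hx
      obtain ⟨i, hi, hi'⟩ := hm x
      rw [hC] at hi'
      simp only at hi'
      split_ifs at hi' with h2
      · exact ⟨i / 2, by omega, hi'⟩
      · exact absurd hx ((hT x).2 ⟨_, hi'⟩)
    · rintro ⟨i, -, hi⟩
      exact (hS x).2 ⟨i, hi⟩
  obtain ⟨k, hk⟩ := (isD_exists_lt m fun i _ => hA i).sub
    (fun j => if j % 2 = 0 ∧ j / 2 < n + 1 then j / 2 else j + (n + 1))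
  refine ⟨⟨{x | pre x W ∈ str (E k)}, k, W, rfl⟩, fun x => ?_⟩
  show pre x W ∈ str (E k) ↔ SatEx φ l (VV c P) (ovr x v)
  rw [hfin x, ← hk]
  show (fun j => (pre x W : ℕ → N) (if j % 2 = 0 ∧ j / 2 < n + 1 then j / 2 else j + (n + 1))) ∈
    {v | ∃ i < m, v ∈ A i} ↔ _
  have : (fun j => (pre x W : ℕ → N) (if j % 2 = 0 ∧ j / 2 < n + 1 then j / 2 else j + (n + 1))) =
      fun j => (e j).elim (W j) x := by
    funext j
    by_cases hj : j % 2 = 0 ∧ j / 2 < n + 1
    · rw [if_pos hj]
      have h2 : e j = some ⟨j / 2, hj.2⟩ := by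
        rw [he]
        simp only
        rw [dif_pos hj]
      rw [h2]
      unfold pre
      rw [dif_pos hj.2]
      rfl
    · rw [if_neg hj]
      have h2 : e j = none := by
        rw [he]
        simp only
        rw [dif_neg hj]
      rw [h2]
      unfold pre
      rw [dif_neg (by omega)]
      show W _ = W j
      congr 1
      omega
  rw [this]

theorem arithComp : ArithComp NN := by
  intro n φ V v
  exact deltaComp n [] [] φ φ V v fun _ => Iff.rfl

end Q204.BL
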