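import Pool.Agent.Q204.BL.Base

set_option autoImplicit false

/-!
# The sequence of definable families
-/

namespace Q204.BL

/-- The two elements of the `i`-th pair. -/
def ab (i : ℕ) (b : Bool) : M :=
  (⟨{x | x i = b}, i + 1, fun x y h => by
    show x i = b ↔ y i = b
    rw [h i (Nat.lt_succ_self i)]⟩, 0)

/-- The `i`-th index. -/
def ix (i : ℕ) : M := (⟨Set.univ, 0, fun _ _ _ => Iff.rfl⟩, i)

/-- The pairing relation. -/
def Pi (m m' : M) : Prop := ∃ i b, m = ab i b ∧ m' = ix i

theorem act_ix (g : Om) (i : ℕ) : act g (ix i) = ix i := rfl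

theorem act_ab (g : Om) (i : ℕ) (b : Bool) : act g (ab i b) = ab i (xor (g i) b) := by
  refine Prod.ext (Subtype.ext ?_) rfl
  ext x
  show xor (g i) (x i) = b ↔ x i = xor (g i) b
  cases g i <;> cases x i <;> cases b <;> simp

theorem Pi_act {g : Om} {m m' : M} (h : Pi m m') : Pi (act g m) (act g m') := by
  obtain ⟨i, b, rfl, rfl⟩ := h
  exact ⟨i, _, act_ab g i b, rfl⟩

theorem ab_inj {i j : ℕ} {b c : Bool} (h : ab i b = ab j c) : i = j ∧ b = c := by
  have h1 : ({x : Om | x i = b} : Set Om) = {x | x j = c} := congrArg (fun m : M => m.1.1) h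
  have h2 : ∀ x : Om, x i = b ↔ x j = c := fun x => by
    have : x ∈ ({x : Om | x i = b} : Set Om) ↔ x ∈ ({x | x j = c} : Set Om) := by rw [h1]
    exact this
  have hij : i = j := by
    by_contra hne
    have h3 : (if j = i then b else !c) = c := (h2 (fun k => if k = i then b else !c)).1 (by simp)
    rw [if_neg (fun h => hne h.symm)] at h3
    cases c <;> simp at h3
  subst hij
  exact ⟨rfl, ((h2 (fun _ => b)).1 rfl)⟩

theorem ix_inj {i j : ℕ} (h : ix i = ix j) : i = j := congrArg Prod.snd h

/-- The finite substitution with a given code. -/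
def sbl (b : ℕ) (i : ℕ) : ℕ := (Denumerable.ofNat (List ℕ) b).getD i 0

/-- One step. -/
noncomputable def step' (tag a b : ℕ) (t : ℕ → Set (ℕ → M)) : Set (ℕ → M) :=
  match tag with
  | 0 => {w | w 0 = w 1}
  | 1 => {w | w ∈ t a → w ∈ t b}
  | 2 => {w | ∀ m, cons m w ∈ t a}
  | 3 => {w | w 0 = cd t (sl (t a) (tl w))}
  | 4 => {w | (fun i => w (sbl b i)) ∈ t a}
  | _ => ∅

/-- One step. -/
noncomputable def step (n : ℕ) (t : ℕ → Set (ℕ → M)) : Set (ℕ → M) :=
  match n with
  | 0 => {w | Pi (w 0) (w 1)}
  | n + 1 => step' n.unpair.1 n.unpair.2.unpair.1 n.unpair.2.unpair.2 t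

/-- The sequence of all definable families. -/
noncomputable def E (n : ℕ) : Set (ℕ → M) :=
  step n (fun k => if _h : k < n then E k else ∅)
termination_by n
decreasing_by exact _h

/-- The object assigned to a set. -/
noncomputable def del (D : Set M) : M := cd E D

theorem E_zero : E 0 = {w | Pi (w 0) (w 1)} := by
  rw [E]
  rfl

theorem step'_congr {tag a b : ℕ} {t t' : ℕ → Set (ℕ → M)} (h : ∀ j ≤ a, t j = t' j)
    (hb : t b = t' b) : step' tag a b t = step' tag a b t' := by
  have ha := h a le_rfl
  match tag with
  | 0 => rfl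
  | 1 => simp only [step', ha, hb]
  | 2 => simp only [step', ha]
  | 3 =>
    simp only [step']
    ext w
    show w 0 = _ ↔ w 0 = _
    rw [ha]
    rw [cd_congr (k := a) (t := t) (t' := t') ⟨tl w, by rw [ha]⟩ h]
  | 4 => simp only [step', ha]
  | n + 5 => rfl

theorem E_succ (n : ℕ) : E (n + 1) =
    step' n.unpair.1 n.unpair.2.unpair.1 n.unpair.2.unpair.2 E := by
  rw [E]
  change step' n.unpair.1 n.unpair.2.unpair.1 n.unpair.2.unpair.2
    (fun k => if h : k < n + 1 then E k else ∅) = _
  have h1 : n.unpair.2.unpair.1 ≤ n :=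
    (Nat.unpair_left_le _).trans (Nat.unpair_right_le _)
  have h2 : n.unpair.2.unpair.2 ≤ n :=
    (Nat.unpair_right_le _).trans (Nat.unpair_right_le _)
  apply step'_congr
  · intro j hj
    rw [dif_pos (by omega)]
  · rw [dif_pos (by omega)]

/-- The code of a step. -/
theorem E_code (tag a b : ℕ) : E (Nat.pair tag (Nat.pair a b) + 1) = step' tag a b E := by
  rw [E_succ]
  simp only [Nat.unpair_pair]

theorem act_inj {g : Om} {m m' : M} : act g m = act g m' ↔ m = m' :=
  ⟨fun h => by rw [← act_act g m, h, act_act], fun h => by rw [h]⟩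

theorem inv_fsup (n : ℕ) : Inv (E n) ∧ FSup (E n) := by
  induction n using Nat.strong_induction_on with
  | _ n ih =>
    cases n with
    | zero =>
      rw [E_zero]
      constructor
      · intro g w
        constructor
        · exact fun h => Pi_act h
        · intro h
          have := Pi_act (g := g) h
          have e : ∀ m, act g (act g m) = m := act_act g
          show Pi (w 0) (w 1)
          rw [← e (w 0), ← e (w 1)]
          exact this
      · refine ⟨2, fun w w' h => ?_⟩
        show Pi (w 0) (w 1) ↔ Pi (w' 0) (w' 1)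
        rw [h 0 (by omega), h 1 (by omega)]
    | succ n =>
      rw [E_succ]
      have ha : n.unpair.2.unpair.1 ≤ n :=
        (Nat.unpair_left_le _).trans (Nat.unpair_right_le _)
      have hb : n.unpair.2.unpair.2 ≤ n :=
        (Nat.unpair_right_le _).trans (Nat.unpair_right_le _)
      generalize n.unpair.2.unpair.1 = a at ha
      generalize n.unpair.2.unpair.2 = b at hb
      generalize n.unpair.1 = tag
      obtain ⟨ia, fa⟩ := ih a (by omega)
      obtain ⟨ib, fb⟩ := ih b (by omega)
      obtain ⟨s, hs⟩ := fa
      obtain ⟨s', hs'⟩ := fb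
      match tag with
      | 0 =>
        constructor
        · intro g w
          show w 0 = w 1 ↔ act g (w 0) = act g (w 1)
          rw [act_inj]
        · refine ⟨2, fun w w' h => ?_⟩
          show w 0 = w 1 ↔ w' 0 = w' 1
          rw [h 0 (by omega), h 1 (by omega)]
      | 1 =>
        constructor
        · intro g w
          show (w ∈ E a → w ∈ E b) ↔ (actv g w ∈ E a → actv g w ∈ E b)
          rw [← ia g w, ← ib g w]
        · refine ⟨max s s', fun w w' h => ?_⟩
          show (w ∈ E a → w ∈ E b) ↔ (w' ∈ E a → w' ∈ E b)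
          rw [hs w w' fun i hi => h i (lt_of_lt_of_le hi (le_max_left _ _)),
            hs' w w' fun i hi => h i (lt_of_lt_of_le hi (le_max_right _ _))]
      | 2 =>
        constructor
        · intro g w
          show (∀ m, cons m w ∈ E a) ↔ ∀ m, cons m (actv g w) ∈ E a
          constructor
          · intro h m
            have := (ia g (cons (act g m) w)).1 (h (act g m))
            rwa [actv_cons, act_act] at this
          · intro h m
            rw [ia g, actv_cons]
            exact h _
        · refine ⟨s, fun w w' h => ?_⟩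
          show (∀ m, cons m w ∈ E a) ↔ ∀ m, cons m w' ∈ E a
          refine forall_congr' fun m => hs _ _ fun i hi => ?_
          cases i with
          | zero => rfl
          | succ i => exact h i (by omega)
      | 3 =>
        have hinv : ∀ j ≤ a, Inv (E j) := fun j hj => (ih j (by omega)).1
        have hfs : ∀ j ≤ a, FSup (E j) := fun j hj => (ih j (by omega)).2
        constructor
        · intro g w
          show w 0 = cd E (sl (E a) (tl w)) ↔ act g (w 0) = cd E (sl (E a) (actv g (tl w)))
          rw [sl_actv ia, cd_acts ⟨tl w, rfl⟩ hinv hfs, act_inj]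
        · refine ⟨s + 1, fun w w' h => ?_⟩
          show w 0 = cd E (sl (E a) (tl w)) ↔ w' 0 = cd E (sl (E a) (tl w'))
          rw [h 0 (by omega), sl_congr (w := tl w) (w' := tl w') hs fun i hi => h (i + 1) (by omega)]
      | 4 =>
        constructor
        · intro g w
          exact ia g (fun i => w (sbl b i))
        · refine ⟨(Finset.range s).sup (fun i => sbl b i + 1), fun w w' h => ?_⟩
          refine hs _ _ fun i hi => h _ ?_
          exact lt_of_lt_of_le (Nat.lt_succ_self _)
            (Finset.le_sup (f := fun i => sbl b i + 1) (Finset.mem_range.2 hi))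
      | k + 5 => exact ⟨fun _ _ => Iff.rfl, 0, fun _ _ _ => Iff.rfl⟩

/-- `del` is injective on slices. -/
theorem del_inj {k k' : ℕ} {w w' : ℕ → M} (h : del (sl (E k) w) = del (sl (E k') w')) :
    sl (E k) w = sl (E k') w' :=
  cd_inj (k := k) (k' := k') ⟨w, rfl⟩ ⟨w', rfl⟩ (fun j => (inv_fsup j).1) (fun j => (inv_fsup j).2) h

/-- Slices do not separate the elements of almost all pairs. -/
theorem no_split (k : ℕ) (w : ℕ → M) : ∃ i, (cons (ix i) (cons (ab i true) w) ∈ E k ↔
    cons (ix i) (cons (ab i false) w) ∈ E k) := by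
  obtain ⟨s, hs⟩ := (inv_fsup k).2
  choose n hn using fun i => act_support (w i)
  set N := (Finset.range s).sup n with hN
  refine ⟨N, ?_⟩
  set g : Om := fun i => decide (i = N) with hg
  have h1 : ∀ i < s, act g (w i) = w i := by
    intro i hi
    have h2 : act g (w i) = act (fun _ => false) (w i) := by
      refine hn i _ _ fun j hj => ?_
      have : j < N := lt_of_lt_of_le hj (Finset.le_sup (f := n) (Finset.mem_range.2 hi))
      rw [hg]
      simp
      omega
    rw [h2]
    refine Prod.ext (Subtype.ext ?_) rfl
    ext x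
    show xr (fun _ => false) x ∈ (w i).1.1 ↔ x ∈ (w i).1.1
    have : xr (fun _ => false) x = x := by
      funext i
      simp [xr]
    rw [this]
  rw [(inv_fsup k).1 g (cons (ix N) (cons (ab N true) w)), actv_cons, actv_cons, act_ix, act_ab]
  have h3 : xor (g N) true = false := by simp [hg]
  rw [h3]
  refine hs _ _ fun i hi => ?_
  match i with
  | 0 => rfl
  | 1 => rfl
  | i + 2 => exact h1 i (by omega)

end Q204.BL
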