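import Pool.Agent.Q204.BL.Seq

set_option autoImplicit false

/-!
# The ultrapower and its definable families
-/

namespace Q204.BL

open Filter

/-- A nonprincipal ultrafilter on `ℕ`. -/
noncomputable def U : Ultrafilter ℕ := hyperfilter ℕ

/-- The ultrapower. -/
abbrev N : Type := Germ (U : Filter ℕ) M

/-- A representative. -/
noncomputable def rp (a : N) : ℕ → M := Quotient.out a

theorem coe_rp (a : N) : ((rp a : ℕ → M) : N) = a := Quotient.out_eq a

theorem rp_coe (r : ℕ → M) : ∀ᶠ t in (U : Filter ℕ), rp (r : N) t = r t :=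
  Germ.coe_eq.1 (coe_rp (r : N))

/-- Coordinates of an assignment. -/
noncomputable def hat (v : ℕ → N) (t : ℕ) : ℕ → M := fun i => rp (v i) t

/-- The extension of a family to the ultrapower. -/
def str (A : Set (ℕ → M)) : Set (ℕ → N) := {v | ∀ᶠ t in (U : Filter ℕ), hat v t ∈ A}

theorem mem_str_of {A : Set (ℕ → M)} (hA : FSup A) {v : ℕ → N} {r : ℕ → ℕ → M}
    (h : ∀ i, v i = (r i : N)) :
    v ∈ str A ↔ ∀ᶠ t in (U : Filter ℕ), (fun i => r i t) ∈ A := by
  obtain ⟨s, hs⟩ := hA
  have h1 : ∀ᶠ t in (U : Filter ℕ), ∀ i ∈ Finset.range s, rp (v i) t = r i t := by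
    rw [eventually_all_finset]
    intro i _
    rw [h i]
    exact rp_coe (r i)
  apply eventually_congr
  filter_upwards [h1] with t ht
  exact hs _ _ fun i hi => ht i (Finset.mem_range.2 hi)

theorem str_congr {A : Set (ℕ → M)} (s : ℕ)
    (hs : ∀ w w' : ℕ → M, (∀ i < s, w i = w' i) → (w ∈ A ↔ w' ∈ A)) {v v' : ℕ → N}
    (h : ∀ i < s, v i = v' i) : v ∈ str A ↔ v' ∈ str A := by
  apply eventually_congr
  filter_upwards with t
  exact hs _ _ fun i hi => by
    show rp (v i) t = rp (v' i) t
    rw [h i hi]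

theorem str_imp (A B : Set (ℕ → M)) : str {w | w ∈ A → w ∈ B} = {v | v ∈ str A → v ∈ str B} := by
  ext v
  exact Ultrafilter.eventually_imp

theorem str_bot : str ∅ = ∅ := by
  ext v
  show (∀ᶠ _ in (U : Filter ℕ), False) ↔ False
  rw [eventually_false_iff_eq_bot]
  exact iff_false_intro U.neBot.ne

theorem str_all {A : Set (ℕ → M)} (hA : FSup A) :
    str {w | ∀ m, cons m w ∈ A} = {v | ∀ a, cons a v ∈ str A} := by
  ext v
  constructor
  · intro h a
    have h' : ∀ᶠ t in (U : Filter ℕ), ∀ m, cons m (hat v t) ∈ A := h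
    rw [mem_str_of hA (r := fun i => rp (cons a v i)) (fun i => (coe_rp _).symm)]
    filter_upwards [h'] with t ht
    have e : (fun i => rp (cons a v i) t) = cons (rp a t) (hat v t) := by
      funext i
      cases i <;> rfl
    rw [e]
    exact ht _
  · intro h
    by_contra hcon
    have h1 : ∀ᶠ t in (U : Filter ℕ), ¬ ∀ m, cons m (hat v t) ∈ A :=
      Ultrafilter.eventually_not.2 hcon
    have h2 : ∀ t, ∃ m, (¬ ∀ m, cons m (hat v t) ∈ A) → cons m (hat v t) ∉ A := by
      intro t
      by_cases ht : ∀ m, cons m (hat v t) ∈ A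
      · exact ⟨ix 0, fun h => absurd ht h⟩
      · push Not at ht
        obtain ⟨m, hm⟩ := ht
        exact ⟨m, fun _ => hm⟩
    choose x hx using h2
    have h3 := h (x : N)
    rw [mem_str_of hA (r := fun i => cons x (fun i => rp (v i)) i) (fun i => by
      cases i with
      | zero => rfl
      | succ i => exact (coe_rp _).symm)] at h3
    obtain ⟨t, ht1, ht3⟩ := (h1.and h3).exists
    apply hx t ht1
    have e : (fun i => (cons x (fun i => rp (v i)) i : ℕ → M) t) = cons (x t) (hat v t) := by
      funext i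
      cases i <;> rfl
    rw [e] at ht3
    exact ht3

theorem str_eq : str {w | w 0 = w 1} = {v | v 0 = v 1} := by
  ext v
  show (∀ᶠ t in (U : Filter ℕ), rp (v 0) t = rp (v 1) t) ↔ v 0 = v 1
  constructor
  · intro h
    have := Germ.coe_eq.2 h
    rwa [coe_rp, coe_rp] at this
  · intro h
    rw [h]
    exact Eventually.of_forall fun _ => rfl

/-- The object assigned to a definable set of the ultrapower. -/
noncomputable def dN (k : ℕ) (v : ℕ → N) : N :=
  ((fun t => del (sl (E k) (hat v t)) : ℕ → M) : N)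

theorem str_ext (k : ℕ) : str {w | w 0 = del (sl (E k) (tl w))} = {v | v 0 = dN k (tl v)} := by
  ext v
  show (∀ᶠ t in (U : Filter ℕ), rp (v 0) t = del (sl (E k) (hat (tl v) t))) ↔ _
  constructor
  · intro h
    have := Germ.coe_eq.2 h
    rwa [coe_rp] at this
  · intro h
    have h' : v 0 = dN k (tl v) := h
    rw [h']
    exact rp_coe _

/-- Definable families of the ultrapower. -/
def IsD (A : Set (ℕ → N)) : Prop := ∃ k, A = str (E k)

theorem isD_str (k : ℕ) : IsD (str (E k)) := ⟨k, rfl⟩

theorem IsD.fsup {A : Set (ℕ → N)} (h : IsD A) : FSup A := by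
  obtain ⟨k, rfl⟩ := h
  obtain ⟨s, hs⟩ := (inv_fsup k).2
  exact ⟨s, fun v v' h => str_congr s hs h⟩

theorem IsD.imp {A B : Set (ℕ → N)} (hA : IsD A) (hB : IsD B) : IsD {v | v ∈ A → v ∈ B} := by
  obtain ⟨a, rfl⟩ := hA
  obtain ⟨b, rfl⟩ := hB
  refine ⟨Nat.pair 1 (Nat.pair a b) + 1, ?_⟩
  rw [E_code]
  exact (str_imp _ _).symm

theorem isD_bot : IsD ∅ := by
  refine ⟨Nat.pair 5 (Nat.pair 0 0) + 1, ?_⟩
  rw [E_code]
  exact str_bot.symm

theorem IsD.all {A : Set (ℕ → N)} (hA : IsD A) : IsD {v | ∀ a, cons a v ∈ A} := by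
  obtain ⟨a, rfl⟩ := hA
  refine ⟨Nat.pair 2 (Nat.pair a 0) + 1, ?_⟩
  rw [E_code]
  exact (str_all (inv_fsup a).2).symm

theorem isD_eq01 : IsD {v : ℕ → N | v 0 = v 1} := by
  refine ⟨Nat.pair 0 (Nat.pair 0 0) + 1, ?_⟩
  rw [E_code]
  exact str_eq.symm

theorem isD_ext (k : ℕ) : IsD {v : ℕ → N | v 0 = dN k (tl v)} := by
  refine ⟨Nat.pair 3 (Nat.pair k 0) + 1, ?_⟩
  rw [E_code]
  exact (str_ext k).symm

theorem IsD.sub {A : Set (ℕ → N)} (hA : IsD A) (σ : ℕ → ℕ) :
    IsD {v | (fun i => v (σ i)) ∈ A} := by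
  obtain ⟨a, rfl⟩ := hA
  obtain ⟨s, hs⟩ := (inv_fsup a).2
  set l : List ℕ := List.ofFn (fun i : Fin s => σ i) with hl
  have hget : ∀ i < s, sbl (Encodable.encode l) i = σ i := by
    intro i hi
    unfold sbl
    rw [Denumerable.ofNat_encode]
    rw [List.getD_eq_getElem _ _ (by rw [hl, List.length_ofFn]; exact hi)]
    simp [hl]
  refine ⟨Nat.pair 4 (Nat.pair a (Encodable.encode l)) + 1, ?_⟩
  rw [E_code]
  ext v
  show (fun i => v (σ i)) ∈ str (E a) ↔
    (fun i => v (sbl (Encodable.encode l) i)) ∈ str (E a)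
  refine str_congr s hs fun i hi => ?_
  rw [hget i hi]

theorem IsD.not {A : Set (ℕ → N)} (hA : IsD A) : IsD {v | v ∉ A} := hA.imp isD_bot

theorem IsD.or {A B : Set (ℕ → N)} (hA : IsD A) (hB : IsD B) : IsD {v | v ∈ A ∨ v ∈ B} := by
  have := hA.not.imp hB
  have e : {v | v ∈ A ∨ v ∈ B} = {v | v ∈ {v | v ∉ A} → v ∈ B} := by
    ext v
    exact or_iff_not_imp_left
  rwa [e]

theorem IsD.and {A B : Set (ℕ → N)} (hA : IsD A) (hB : IsD B) : IsD {v | v ∈ A ∧ v ∈ B} := by
  have := (hA.imp hB.not).not
  have e : {v | v ∈ A ∧ v ∈ B} = {v | v ∉ {v | v ∈ A → v ∈ {v | v ∉ B}}} := by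
    ext v
    show (v ∈ A ∧ v ∈ B) ↔ ¬ (v ∈ A → v ∉ B)
    tauto
  rwa [e]

theorem IsD.ex {A : Set (ℕ → N)} (hA : IsD A) : IsD {v | ∃ a, cons a v ∈ A} := by
  have := (hA.not.all).not
  have e : {v | ∃ a, cons a v ∈ A} = {v | v ∉ {v | ∀ a, cons a v ∈ {v | v ∉ A}}} := by
    ext v
    show (∃ a, cons a v ∈ A) ↔ ¬ ∀ a, cons a v ∉ A
    push Not
    rfl
  rwa [e]

theorem isD_top : IsD (Set.univ : Set (ℕ → N)) := by
  have := isD_bot.not
  have e : (Set.univ : Set (ℕ → N)) = {v | v ∉ (∅ : Set (ℕ → N))} := by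
    ext v
    simp
  rwa [e]

theorem isD_eq (i j : ℕ) : IsD {v : ℕ → N | v i = v j} :=
  isD_eq01.sub (fun n => if n = 0 then i else j)

/-- Finite intersections. -/
theorem isD_forall_lt {A : ℕ → Set (ℕ → N)} (n : ℕ) (hA : ∀ i < n, IsD (A i)) :
    IsD {v | ∀ i < n, v ∈ A i} := by
  induction n with
  | zero =>
    have e : {v : ℕ → N | ∀ i < 0, v ∈ A i} = Set.univ := by
      ext v
      simp
    rw [e]
    exact isD_top
  | succ n ih =>
    have h := (ih fun i hi => hA i (by omega)).and (hA n (by omega))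
    have e : {v : ℕ → N | ∀ i < n + 1, v ∈ A i} = {v | v ∈ {v | ∀ i < n, v ∈ A i} ∧ v ∈ A n} := by
      ext v
      constructor
      · exact fun h => ⟨fun i hi => h i (by omega), h n (by omega)⟩
      · rintro ⟨h1, h2⟩ i hi
        rcases Nat.lt_succ_iff_lt_or_eq.1 hi with hi | rfl
        · exact h1 i hi
        · exact h2
    rwa [e]

/-- Finite unions. -/
theorem isD_exists_lt {A : ℕ → Set (ℕ → N)} (n : ℕ) (hA : ∀ i < n, IsD (A i)) :
    IsD {v | ∃ i < n, v ∈ A i} := by
  have := (isD_forall_lt n fun i hi => (hA i hi).not).not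
  have e : {v : ℕ → N | ∃ i < n, v ∈ A i} = {v | v ∉ {v | ∀ i < n, v ∈ {v | v ∉ A i}}} := by
    ext v
    show (∃ i < n, v ∈ A i) ↔ ¬ ∀ i < n, v ∉ A i
    push Not
    rfl
  rwa [e]

/-- Prepend `m` elements. -/
def pre {m : ℕ} (x : Fin m → N) (v : ℕ → N) : ℕ → N :=
  fun i => if h : i < m then x ⟨i, h⟩ else v (i - m)

/-- Quantification over tuples. -/
theorem IsD.exs {m : ℕ} {A : Set (ℕ → N)} (hA : IsD A) :
    IsD {v | ∃ x : Fin m → N, pre x v ∈ A} := by
  induction m generalizing A with
  | zero =>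
    have e : {v : ℕ → N | ∃ x : Fin 0 → N, pre x v ∈ A} = A := by
      ext v
      constructor
      · rintro ⟨x, hx⟩
        exact hx
      · intro h
        exact ⟨Fin.elim0, h⟩
    rwa [e]
  | succ m ih =>
    -- the last element
    have h1 := (hA.sub (fun i => if i < m then i + 1 else if i = m then 0 else i)).ex
    have h2 := ih h1
    have e : {v : ℕ → N | ∃ x : Fin (m + 1) → N, pre x v ∈ A} =
        {v | ∃ x : Fin m → N, pre x v ∈ {v | ∃ a, cons a v ∈
          {v | (fun i => v (if i < m then i + 1 else if i = m then 0 else i)) ∈ A}}} := by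
      ext v
      have key : ∀ (x : Fin m → N) (a : N) (y : Fin (m + 1) → N), (∀ i : Fin m, y i.castSucc = x i) →
          y (Fin.last m) = a → (fun i => (cons a (pre x v) : ℕ → N)
            (if i < m then i + 1 else if i = m then 0 else i)) = pre y v := by
        intro x a y hy hya
        funext i
        unfold pre
        rcases lt_trichotomy i m with hi | rfl | hi
        · rw [if_pos hi, dif_pos (by omega)]
          show (if h : i < m then x ⟨i, h⟩ else v (i - m)) = _
          rw [dif_pos hi]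
          exact (hy ⟨i, hi⟩).symm
        · rw [if_neg (by omega), if_pos rfl, dif_pos (by omega)]
          exact hya.symm
        · rw [if_neg (by omega), if_neg (by omega), dif_neg (by omega)]
          obtain ⟨j, rfl⟩ : ∃ j, i = j + 1 := ⟨i - 1, by omega⟩
          show (if h : j < m then x ⟨j, h⟩ else v (j - m)) = _
          rw [dif_neg (by omega)]
          congr 1
          omega
      constructor
      · rintro ⟨y, hy⟩
        refine ⟨fun i => y i.castSucc, y (Fin.last m), ?_⟩
        show (fun i => (cons (y (Fin.last m)) (pre (fun i => y i.castSucc) v) : ℕ → N)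
            (if i < m then i + 1 else if i = m then 0 else i)) ∈ A
        rw [key (fun i => y i.castSucc) (y (Fin.last m)) y (fun _ => rfl) rfl]
        exact hy
      · rintro ⟨x, a, h⟩
        refine ⟨Fin.snoc (α := fun _ => N) x a, ?_⟩
        have h' : (fun i => (cons a (pre x v) : ℕ → N)
            (if i < m then i + 1 else if i = m then 0 else i)) ∈ A := h
        rw [key x a (Fin.snoc (α := fun _ => N) x a) (fun i => by simp) (by simp)] at h'
        exact h'
    rwa [e]

/-- Quantification over one coordinate. -/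
theorem IsD.ex_update {A : Set (ℕ → N)} (hA : IsD A) (j : ℕ) :
    IsD {v | ∃ a, Function.update v j a ∈ A} := by
  have h := (hA.sub (fun i => if i = j then 0 else i + 1)).ex
  have e : {v : ℕ → N | ∃ a, Function.update v j a ∈ A} =
      {v | ∃ a, cons a v ∈ {v | (fun i => v (if i = j then 0 else i + 1)) ∈ A}} := by
    ext v
    refine exists_congr fun a => ?_
    show Function.update v j a ∈ A ↔ (fun i => (cons a v : ℕ → N) (if i = j then 0 else i + 1)) ∈ A
    have : (fun i => (cons a v : ℕ → N) (if i = j then 0 else i + 1)) = Function.update v j a := by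
      funext i
      by_cases hi : i = j
      · subst hi
        simp
      · simp [hi]
    rw [this]
  rwa [e]

/-- Universal quantification over one coordinate. -/
theorem IsD.all_update {A : Set (ℕ → N)} (hA : IsD A) (j : ℕ) :
    IsD {v | ∀ a, Function.update v j a ∈ A} := by
  have h := (hA.not.ex_update j).not
  have e : {v : ℕ → N | ∀ a, Function.update v j a ∈ A} =
      {v | v ∉ {v | ∃ a, Function.update v j a ∈ {v | v ∉ A}}} := by
    ext v
    show (∀ a, Function.update v j a ∈ A) ↔ ¬ ∃ a, Function.update v j a ∉ A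
    push Not
    rfl
  rwa [e]

/-- Quantification over a block of coordinates. -/
theorem IsD.ex_block {A : Set (ℕ → N)} (hA : IsD A) (Z : Set ℕ) :
    IsD {v | ∃ v', (∀ i, i ∉ Z → v' i = v i) ∧ v' ∈ A} := by
  classical
  obtain ⟨s, hs⟩ := hA.fsup
  have key : ∀ n, IsD {v | ∃ v' : ℕ → N, (∀ i, (i ∉ Z ∨ n ≤ i) → v' i = v i) ∧ v' ∈ A} := by
    intro n
    induction n with
    | zero =>
      have e : {v : ℕ → N | ∃ v' : ℕ → N, (∀ i, (i ∉ Z ∨ 0 ≤ i) → v' i = v i) ∧ v' ∈ A} = A := by
        ext v
        constructor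
        · rintro ⟨v', h1, h2⟩
          have : v' = v := funext fun i => h1 i (Or.inr (Nat.zero_le _))
          rwa [← this]
        · exact fun h => ⟨v, fun _ _ => rfl, h⟩
      rwa [e]
    | succ n ih =>
      by_cases hn : n ∈ Z
      · have h := ih.ex_update n
        have e : {v : ℕ → N | ∃ v' : ℕ → N, (∀ i, (i ∉ Z ∨ n + 1 ≤ i) → v' i = v i) ∧ v' ∈ A} =
            {v | ∃ a, Function.update v n a ∈
              {v | ∃ v' : ℕ → N, (∀ i, (i ∉ Z ∨ n ≤ i) → v' i = v i) ∧ v' ∈ A}} := by
          ext v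
          constructor
          · rintro ⟨v', h1, h2⟩
            refine ⟨v' n, v', fun i hi => ?_, h2⟩
            by_cases hin : i = n
            · subst hin
              simp
            · rw [Function.update_of_ne hin]
              apply h1
              rcases hi with hi | hi
              · exact Or.inl hi
              · right
                omega
          · rintro ⟨a, v', h1, h2⟩
            refine ⟨v', fun i hi => ?_, h2⟩
            have hin : i ≠ n := by
              rintro rfl
              rcases hi with hi | hi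
              · exact hi hn
              · omega
            rw [h1 i (by
              rcases hi with hi | hi
              · exact Or.inl hi
              · right; omega), Function.update_of_ne hin]
        rwa [e]
      · have e : {v : ℕ → N | ∃ v' : ℕ → N, (∀ i, (i ∉ Z ∨ n + 1 ≤ i) → v' i = v i) ∧ v' ∈ A} =
            {v : ℕ → N | ∃ v' : ℕ → N, (∀ i, (i ∉ Z ∨ n ≤ i) → v' i = v i) ∧ v' ∈ A} := by
          ext v
          refine exists_congr fun v' => and_congr_left fun _ => forall_congr' fun i =>
            imp_congr_left ?_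
          constructor
          · rintro (h | h)
            · exact Or.inl h
            · exact Or.inr (by omega)
          · rintro (h | h)
            · exact Or.inl h
            · by_cases hin : i = n
              · subst hin
                exact Or.inl hn
              · exact Or.inr (by omega)
        rwa [e]
  have e : {v : ℕ → N | ∃ v', (∀ i, i ∉ Z → v' i = v i) ∧ v' ∈ A} =
      {v : ℕ → N | ∃ v' : ℕ → N, (∀ i, (i ∉ Z ∨ s ≤ i) → v' i = v i) ∧ v' ∈ A} := by
    ext v
    constructor
    · rintro ⟨v', h1, h2⟩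
      refine ⟨fun i => if i < s then v' i else v i, fun i hi => ?_, ?_⟩
      · by_cases his : i < s
        · simp only [his, if_true]
          rcases hi with hi | hi
          · exact h1 i hi
          · omega
        · simp only [his, if_false]
      · refine (hs _ _ fun i hi => ?_).1 h2
        simp only [hi, if_true]
    · rintro ⟨v', h1, h2⟩
      exact ⟨v', fun i hi => h1 i (Or.inl hi), h2⟩
  rw [e]
  exact key s

/-- Saturation. -/
theorem saturation {m : ℕ} (e : ℕ → Option (Fin m)) (W : ℕ → N) {A : ℕ → Set (ℕ → N)}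
    (hA : ∀ i, IsD (A i))
    (h : ∀ x : Fin m → N, ∃ i, (fun j => (e j).elim (W j) x) ∈ A i) :
    ∃ n, ∀ x : Fin m → N, ∃ i < n, (fun j => (e j).elim (W j) x) ∈ A i := by
  classical
  by_contra hcon
  push Not at hcon
  choose x hx using hcon
  choose k hk using hA
  -- the sets of indices
  set T : ℕ → Set ℕ := fun n => {t | ∃ y : Fin m → M, ∀ i < n,
    (fun j => (e j).elim (hat W t j) y) ∉ E (k i)} with hT
  have hTU : ∀ n, ∀ᶠ t in (U : Filter ℕ), t ∈ T n := by
    intro n
    have h1 : ∀ᶠ t in (U : Filter ℕ), ∀ i ∈ Finset.range n,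
        (fun j => (e j).elim (hat W t j) (fun l => rp (x n l) t)) ∉ E (k i) := by
      rw [eventually_all_finset]
      intro i hi
      have h2 := hx n i (Finset.mem_range.1 hi)
      rw [hk i, mem_str_of (inv_fsup (k i)).2 (r := fun j => (e j).elim (rp (W j))
        (fun l => rp (x n l))) (fun j => by
          cases e j with
          | none => exact (coe_rp _).symm
          | some l => exact (coe_rp _).symm)] at h2
      have h3 := Ultrafilter.eventually_not.2 h2
      filter_upwards [h3] with t ht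
      have e1 : (fun j => (e j).elim (hat W t j) (fun l => rp (x n l) t)) =
          fun j => ((e j).elim (rp (W j)) (fun l => rp (x n l)) : ℕ → M) t := by
        funext j
        cases e j <;> rfl
      rw [e1]
      exact ht
    filter_upwards [h1] with t ht
    exact ⟨fun l => rp (x n l) t, fun i hi => ht i (Finset.mem_range.2 hi)⟩
  have hT0 : ∀ t, t ∈ T 0 := fun t => ⟨fun _ => ix 0, fun i hi => absurd hi (by omega)⟩
  set g : ℕ → ℕ := fun t => Nat.findGreatest (fun n => t ∈ T n) t with hg
  have hgT : ∀ t, t ∈ T (g t) := fun t => Nat.findGreatest_spec (P := fun n => t ∈ T n)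
    (Nat.zero_le t) (hT0 t)
  choose y hy using hgT
  set z : Fin m → N := fun l => ((fun t => y t l : ℕ → M) : N) with hz
  obtain ⟨i, hi⟩ := h z
  rw [hk i, mem_str_of (inv_fsup (k i)).2 (r := fun j => (e j).elim (rp (W j))
    (fun l t => y t l)) (fun j => by
      cases e j with
      | none => exact (coe_rp _).symm
      | some l => rfl)] at hi
  have hge : ∀ᶠ t in (U : Filter ℕ), i + 1 ≤ t := by
    have : (U : Filter ℕ) ≤ cofinite := hyperfilter_le_cofinite
    exact this (Nat.cofinite_eq_atTop ▸ eventually_ge_atTop (i + 1))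
  obtain ⟨t, ⟨ht1, ht2⟩, ht3⟩ := ((hi.and hge).and (hTU (i + 1))).exists
  have h4 : i + 1 ≤ g t := Nat.le_findGreatest ht2 ht3
  have h5 := hy t i (by omega)
  apply h5
  have e1 : (fun j => (e j).elim (hat W t j) (y t)) =
      fun j => ((e j).elim (rp (W j)) (fun l t => y t l) : ℕ → M) t := by
    funext j
    cases e j <;> rfl
  rw [e1]
  exact ht1

end Q204.BL
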